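import Pool.Agent.TH778.MX.Zfc

/-!
# Every concentrated set may be Hurewicz while the semifilter trichotomy fails

Part 1 (in ZFC): the combinatorial statement `MatrixHypothesis` implies that all `b`-concentrated
sets of reals are Hurewicz (even productively Hurewicz) and that the semifilter trichotomy fails.
Part 2: `MatrixHypothesis` holds in the extension by some cardinal preserving forcing notion, a
matrix of finite support iterations with `ω₁` rows and `ω₂` columns. The columns add
pseudo-intersections of ultrafilters, one ultrafilter for each row, which extend each other in such
a way that the Cohen reals distinguishing the rows stay unbounded over the lower rows; other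
columns add functions dominating all functions of one row.
-/

namespace Pool.Agent.Results.MP_0d4624_gt.MatrixModel

open Pool.Agent.TH778.MX Pool.Agent.H458R6 Pool.Agent.Helper669.Forcing

/-- It is consistent that every `b`-concentrated set is Hurewicz and the semifilter trichotomy
fails: a hypothesis implying this (first part) is forced (second part). -/
theorem result :
    (MatrixHypothesis →
      (∀ X : Set (ℕ → Bool), Concentrated X → Hurewicz X ∧ ProductivelyHurewicz X) ∧
        ¬ SemifilterTrichotomy) ∧
    ∃ (P : Type) (_ : Preorder P), Nonempty P ∧
      ∀ p : P, p ∈ CardinalsPreserved.{0, 0} P ∧ p ∈ ForcedMatrixHypothesis P :=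
  ⟨main_zfc, main_forced⟩

end Pool.Agent.Results.MP_0d4624_gt.MatrixModel
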